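import Pool.Agent.R644.SP.Bv5

/-!
# Visits of the infinite half-plane self-avoiding walk on the hexagonal grid to the boundary
-/

set_option autoImplicit false

namespace Pool.Agent.Results.MP_df1d0b_pr.BoundaryVisits

open Filter Topology MeasureTheory
open scoped ENNReal

/-- `e^{iπ/3}` -/
noncomputable def Om : ℂ := ⟨1 / 2, Real.sqrt 3 / 2⟩

/-- the hexagonal grid with edge length one and a vertex at `0` (the triangular grid without the
centres of the hexagons) -/
def HexG : Set ℂ := {z | ∃ a b : ℤ, (a - b) % 3 ≠ 2 ∧ z = a + b * Om}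

/-- the grid `Λ` multiplied by `u` -/
def rot (u : ℂ) (Λ : Set ℂ) : Set ℂ := {z | ∃ w ∈ Λ, z = u * w}

/-- self-avoiding walks with `n` steps in the closed upper half-plane, starting at `0`, with steps of
length `r` between points of `Λ`; a walk is continued by its last point -/
def PW (Λ : Set ℂ) (r : ℝ) (n : ℕ) : Set (ℕ → ℂ) :=
  {γ | γ 0 = 0 ∧ (∀ i, γ i ∈ Λ ∧ 0 ≤ (γ i).im) ∧ (∀ i < n, ‖γ (i + 1) - γ i‖ = r) ∧
    (∀ i ≤ n, ∀ j ≤ n, γ i = γ j → i = j) ∧ ∀ i, n ≤ i → γ i = γ n}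

/-- The point `z` is on the real line or on the line at height `r`. If the grid has the edge length
`r`, a vertex at `0` and an edge at `0` perpendicular to the real line, then this edge is below or
above the real line. In the first case the line at height `r` contains no vertex of the grid; in the
second case every vertex on the real line has one neighbour only in the half-plane. -/
def Low (r : ℝ) (z : ℂ) : Prop := z.im = 0 ∨ z.im = r

/-- **Theorem.** For the hexagonal grid of edge length `‖u‖` with a vertex at `0` and an edge at `0`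
perpendicular to the real line, the infinite half-plane self-avoiding walk (the weak limit `μ` of the
uniform measures on `n`-step half-plane walks) satisfies:
(1) the mean number of its visits to the two lowest lines `Im z = 0` and `Im z = ‖u‖` is at most
`4 + 2 √2`;
(2) the number of these visits is larger than `n + 1` with probability at most `6 (0.994) ^ n`;
(3) the walk visits one of these lines after it has reached distance `R ‖u‖` from `0` with
probability at most `4600 R ^ (-0.115)`, for all `R ≥ 1`;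
(4) the walk visits one of these lines at or after the time `k` with probability at most
`4600 k ^ (-0.0575)`, for all `k ≥ 1`. -/
theorem result (u : ℂ) (hu : u ≠ 0) (hv : ∃ z ∈ rot u HexG, ‖z‖ = ‖u‖ ∧ z.re = 0) :
    ∃ μ : Measure (ℕ → ℂ), IsProbabilityMeasure μ ∧
      (∀ᵐ γ ∂μ, γ 0 = 0 ∧ (∀ i, γ i ∈ rot u HexG ∧ 0 ≤ (γ i).im) ∧
        (∀ i, ‖γ (i + 1) - γ i‖ = ‖u‖) ∧ Function.Injective γ) ∧
      (∀ F : BoundedContinuousFunction (ℕ → ℂ) ℝ,
        Tendsto (fun n => (∑ᶠ γ ∈ PW (rot u HexG) ‖u‖ n, F γ) /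
          ((PW (rot u HexG) ‖u‖ n).ncard : ℝ)) atTop (𝓝 (∫ γ, F γ ∂μ))) ∧
      ∑' i : ℕ, μ {γ | Low ‖u‖ (γ i)} ≤ ENNReal.ofReal (4 + 2 * Real.sqrt 2) ∧
      (∀ n : ℕ, μ {γ | ((n + 1 : ℕ) : ℕ∞) < Set.encard {i : ℕ | Low ‖u‖ (γ i)}} ≤
        ENNReal.ofReal (6 * (497 / 500 : ℝ) ^ n)) ∧
      (∀ R : ℝ, 1 ≤ R → μ {γ | ∃ i j : ℕ, i ≤ j ∧ R * ‖u‖ ≤ ‖γ i‖ ∧ Low ‖u‖ (γ j)} ≤
        ENNReal.ofReal (4600 * R ^ (-(23 / 200) : ℝ))) ∧
      ∀ k : ℕ, 1 ≤ k → μ {γ | ∃ j : ℕ, k ≤ j ∧ Low ‖u‖ (γ j)} ≤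
        ENNReal.ofReal (4600 * (k : ℝ) ^ (-(23 / 400) : ℝ)) := by
  obtain ⟨c0, hc, E, hE⟩ := Pool.Agent.W818.TD.emb_vert u hu hv
  obtain ⟨μ, h1, h2, h3, h4⟩ :=
    Pool.Agent.H976R3.HPL.concl_of_emb E Pool.Agent.H976R3.HPL.facts_hexA
  have := h1
  have hr : 0 < ‖u‖ := norm_pos_iff.2 hu
  exact ⟨μ, h1, h2, h4, Pool.Agent.R644.SP.Bv.hp_mean hc hr E hE μ h2 h3,
    Pool.Agent.R644.SP.Bv.hp_tail hc hr E hE μ h2 h3,
    Pool.Agent.R644.SP.Bv.hp_dist hc hr E hE μ h2 h3,
    Pool.Agent.R644.SP.Bv.hp_time hc hr E hE μ h2 h3⟩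

end Pool.Agent.Results.MP_df1d0b_pr.BoundaryVisits
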