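import Pool.Agent.R965.HP.End
import Pool.Agent.TH303.SX2

/-!
# Half-plane self-avoiding walks of consecutive lengths: ratios of the numbers of walks and total
variation distance of the laws of the end points, with a rate; the same in general domains
-/

set_option autoImplicit false

namespace Pool.Agent.Results.MP_df1d0b_pr.ConsecutiveLengths

open Filter Topology

/-- the three grids -/
inductive Grid
  | square
  | triangular
  | hexagonal

/-- Adjacency of the grids, in coordinates on `ℤ × ℤ`. Square grid: `p` is the point `(p.1, p.2)`.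
Triangular grid: `p` is the point `p.1 e^{iπ/3} + p.2 e^{2iπ/3}`. Hexagonal grid: brick wall. -/
def Grid.Adj : Grid → ℤ × ℤ → ℤ × ℤ → Prop
  | .square, p, q => |p.1 - q.1| + |p.2 - q.2| = 1
  | .triangular, p, q =>
    q - p ∈ ({(1, 0), (-1, 0), (0, 1), (0, -1), (1, -1), (-1, 1)} : Set (ℤ × ℤ))
  | .hexagonal, p, q => q - p = (1, 0) ∨ q - p = (-1, 0) ∨ (q - p = (0, 1) ∧ Even (p.1 + p.2)) ∨
    (q - p = (0, -1) ∧ Even (q.1 + q.2))

/-- The closed half-plane whose boundary is a line through the origin which contains edges (a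
column of the square grid or of the brick wall, a line with the direction of an edge for the
triangular grid). -/
def Grid.Half : Grid → ℤ × ℤ → Prop
  | .square, p => 0 ≤ p.1
  | .triangular, p => 0 ≤ p.1 + p.2
  | .hexagonal, p => 0 ≤ p.1

/-- the difference of the lengths: `1` for the triangular grid, `2` for the two bipartite grids -/
def Grid.s : Grid → ℕ
  | .square => 2
  | .triangular => 1
  | .hexagonal => 2

/-- the `n`-step self-avoiding walks from the origin in the set `D` of vertices -/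
def walks (G : Grid) (D : ℤ × ℤ → Prop) (n : ℕ) : Set (Fin (n + 1) → ℤ × ℤ) :=
  {ω | ω 0 = 0 ∧ Function.Injective ω ∧ (∀ i : Fin n, G.Adj (ω i.castSucc) (ω i.succ)) ∧
    ∀ i, D (ω i)}

/-- the number of these walks -/
noncomputable def h (G : Grid) (D : ℤ × ℤ → Prop) (n : ℕ) : ℝ := ((walks G D n).ncard : ℝ)

/-- the probability that the end point of the uniform `n`-step walk in `D` belongs to `S` -/
noncomputable def endLaw (G : Grid) (D : ℤ × ℤ → Prop) (n : ℕ) (S : Set (ℤ × ℤ)) : ℝ :=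
  ({ω ∈ walks G D n | ω (Fin.last n) ∈ S}.ncard : ℝ) / h G D n

/-- the comparison of the lengths `n` and `n + s`, with the rate `ε n` -/
def Close (G : Grid) (D : ℤ × ℤ → Prop) (μ : ℝ) (ε : ℕ → ℝ) : Prop :=
  ∃ C : ℝ, ∀ n : ℕ, 2 ≤ n → |h G D (n + G.s) / h G D n - μ ^ G.s| ≤ C * ε n ∧
    ∀ S : Set (ℤ × ℤ), |endLaw G D (n + G.s) S - endLaw G D n S| ≤ C * ε n

open Pool.Agent.R965.HP TH966.AK in
/-- transfer from the library -/
theorem close_of (G : Grid) (D : ℤ × ℤ → Prop) (h0 : D 0) {A : ℤ × ℤ → ℤ × ℤ → Prop}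
    (e : G.Adj = A) (Z : Rule A) (hs : Z.s = G.s)
    {μ K : ℝ} {a : ℕ} (H : Gr (ruleD Z D).sys μ K a) (ha : 1 ≤ a) :
    Close G D μ (fun n => Real.sqrt (Real.log n ^ a / n)) := by
  subst e
  obtain ⟨C, -, hC⟩ := ends Z h0 H ha
  rw [hs] at hC
  exact ⟨C, fun n hn => hC n hn⟩

theorem rate_two (n : ℕ) : Real.sqrt (Real.log n ^ 2 / n) = Real.log n / Real.sqrt n := by
  rw [Real.sqrt_div' _ (Nat.cast_nonneg n), Real.sqrt_sq (Real.log_natCast_nonneg n)]

open Pool.Agent.R965.HP TH966.AK in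
theorem half_of (G : Grid) (D : ℤ × ℤ → Prop) (h0 : D 0) {A : ℤ × ℤ → ℤ × ℤ → Prop}
    (e : G.Adj = A) (Z : Rule A) (hs : Z.s = G.s)
    {μ : ℝ} (H : ∃ K : ℝ, Gr (ruleD Z D).sys μ K 2) :
    Close G D μ (fun n => Real.log n / Real.sqrt n) := by
  obtain ⟨K, hK⟩ := H
  obtain ⟨C, hC⟩ := close_of G D h0 e Z hs hK one_le_two
  refine ⟨C, fun n hn => ?_⟩
  have h1 := hC n hn
  simp only [rate_two] at h1
  exact h1

open Pool.Agent.R965.HP TH966.AK in
theorem dom_of (L : H982.Lat) (G : Grid) {A : ℤ × ℤ → ℤ × ℤ → Prop}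
    (e : G.Adj = A) (Z : Rule A) (hs : Z.s = G.s) (hs1 : 1 ≤ Z.s) {φ : ℤ × ℤ → ℤ × ℤ}
    {R : ℕ → ℤ × ℤ → Prop} (H : @H982.Coord L A φ R)
    (hcl : ∀ D : ℤ × ℤ → Prop, ∀ U U', Z.T U U' → (∀ x ∈ U', D x) → ∀ x ∈ U, D x)
    (hp : ∃ (M0 : ℕ) (ρ C0 : ℝ), 1 ≤ M0 ∧ 0 ≤ ρ ∧ ρ < @H982.mu L ∧ ∀ n : ℕ,
      (((Kw A n).filter (fun w => M0 * (Z.B w).card ≤ n)).card : ℝ) ≤ C0 * ρ ^ n)
    (D : ℤ × ℤ → Prop) (h0 : D 0) (a : ℕ) (K : ℝ) (ha : 2 ≤ a)
    (hlow : ∀ n : ℕ, 2 ≤ n → @H982.mu L ^ n * Real.exp (-(K * Real.log n ^ a)) ≤ h G D n) :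
    Close G D (@H982.mu L) (fun n => Real.sqrt (Real.log n ^ a / n)) := by
  obtain ⟨K', hK'⟩ := gr_dom Z H hs1 D h0 (hcl D) hp (K := K) ha (fun n hn => by
    refine (hlow n hn).trans (le_of_eq ?_)
    have h1 := ncard_Wk Z h0 n
    subst e
    exact h1)
  exact close_of G D h0 e Z hs hK' (by omega)

theorem h_true (G : Grid) (n : ℕ) : h G (fun _ => True) n =
    ((H982.walks G.Adj n).ncard : ℝ) := by
  unfold h walks H982.walks
  congr 2
  ext ω
  simp

theorem root_of (L : H982.Lat) (G : Grid) {A : ℤ × ℤ → ℤ × ℤ → Prop}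
    (e : G.Adj = A) {φ : ℤ × ℤ → ℤ × ℤ} {R : ℕ → ℤ × ℤ → Prop}
    (H : @H982.Coord L A φ R) :
    Tendsto (fun n : ℕ => h G (fun _ => True) n ^ (1 / (n : ℝ))) atTop (𝓝 (@H982.mu L)) := by
  subst e
  have h1 := @H982.tendsto_root L
  refine h1.congr fun n => ?_
  rw [h_true, @H982.ncard_walks L _ _ _ H]

/-- **Theorem.** For each of the three grids let `μ` be the connective constant. Then:
(1) for the closed half-plane: `|h (n + s) / h n - μ ^ s| ≤ C log n / √n` for `n ≥ 2`, and the laws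
of the end points of the uniform `n`-step and `(n + s)`-step half-plane walks differ on every set by
at most `C log n / √n`;
(2) for the square and the triangular grid and for every set `D` of vertices which contains the
origin and satisfies `h n ≥ μ ^ n exp (- K (log n)^a)` for all `n ≥ 2`, with some `K` and some
`a ≥ 2`, the same holds with the rate `((log n)^a / n)^(1/2)`;
(3) for the square grid, (2) applies with `a = 3` to every `D` which contains the points with
`|x| ≤ η y`, for some `0 < η ≤ 1`. -/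
theorem result : ∀ G : Grid, ∃ μ : ℝ, 0 < μ ∧
    Tendsto (fun n : ℕ => h G (fun _ => True) n ^ (1 / (n : ℝ))) atTop (𝓝 μ) ∧
    Close G G.Half μ (fun n => Real.log n / Real.sqrt n) ∧
    (G ≠ .hexagonal → ∀ D : ℤ × ℤ → Prop, D 0 → ∀ (a : ℕ) (K : ℝ), 2 ≤ a →
      (∀ n : ℕ, 2 ≤ n → μ ^ n * Real.exp (-(K * Real.log n ^ a)) ≤ h G D n) →
      Close G D μ (fun n => Real.sqrt (Real.log n ^ a / n))) ∧
    (G = .square → ∀ η : ℝ, 0 < η → η ≤ 1 → ∀ D : ℤ × ℤ → Prop,
      (∀ p : ℤ × ℤ, |(p.1 : ℝ)| ≤ η * (p.2 : ℝ) → D p) →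
      Close G D μ (fun n => Real.sqrt (Real.log n ^ 3 / n))) := by
  have esq : Grid.square.Adj = Pool.Agent.R965.HP.Sq.A := rfl
  have etri : Grid.triangular.Adj = TH966.AK.Tri.A := TH966.AK.adjT_eq
  have ehex : Grid.hexagonal.Adj = TH966.AK.Hex.A := rfl
  obtain ⟨φ, R, htri, -⟩ := Pool.Agent.R965.HP.coord_triA
  have hdsq := dom_of H982P.sqL .square esq Pool.Agent.R965.HP.Sq.rule rfl
    (show 1 ≤ 2 by norm_num) H982P.coord_sq Pool.Agent.R965.HP.sq_cl
    Pool.Agent.R965.HP.sq_poor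
  intro G
  cases G with
  | square =>
    refine ⟨@H982.mu H982P.sqL, @H982.mu_pos H982P.sqL,
      root_of H982P.sqL .square esq H982P.coord_sq,
      half_of .square _ (show (0 : ℤ) ≤ 0 from le_rfl) esq Pool.Agent.R965.HP.Sq.rule rfl
        Pool.Agent.R965.HP.half_sq, fun _ => hdsq, ?_⟩
    intro _ η hη hη1 D hD
    have h0 : D 0 := hD 0 (by simp)
    obtain ⟨K, hK⟩ := Pool.Agent.TH303.SX2.wedge_final
    refine hdsq D h0 3 (K / η) (by norm_num) fun n hn => ?_
    have h1 := hK η hη hη1 n hn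
    have hw : ((Pool.Agent.H122R3.SX.walks n).ncard : ℝ) = @H982.cr' H982P.sqL n := by
      rw [← @H982.ncard_walks H982P.sqL _ _ _ H982P.coord_sq]
      rfl
    have h2 := @H982.mu_pow_le H982P.sqL n
    rw [← hw] at h2
    have hmp : 0 < @H982.mu H982P.sqL ^ n := pow_pos (@H982.mu_pos H982P.sqL) n
    have hpos : (0 : ℝ) < ((Pool.Agent.H122R3.SX.walks n).ncard : ℝ) := hmp.trans_le h2
    rw [le_div_iff₀ hpos] at h1
    have hfin : (walks .square D n).Finite := by
      refine (Pool.Agent.H122R3.SX.walks_finite n).subset fun f hf => ?_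
      exact ⟨hf.1, hf.2.1, hf.2.2.1⟩
    have h3 : ({f | f ∈ Pool.Agent.H122R3.SX.walks n ∧
        ∀ i, |((f i).1 : ℝ)| ≤ η * (f i).2}.ncard : ℝ) ≤ h .square D n := by
      have hsub : {f | f ∈ Pool.Agent.H122R3.SX.walks n ∧
          ∀ i, |((f i).1 : ℝ)| ≤ η * (f i).2} ⊆ walks .square D n := by
        intro f hf
        exact ⟨hf.1.1, hf.1.2.1, hf.1.2.2, fun i => hD _ (hf.2 i)⟩
      unfold h
      exact_mod_cast Set.ncard_le_ncard hsub hfin
    refine le_trans ?_ (h1.trans h3)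
    rw [mul_comm]
    exact mul_le_mul_of_nonneg_left h2 (Real.exp_pos _).le
  | triangular =>
    refine ⟨@H982.mu H982P.triL, @H982.mu_pos H982P.triL,
      root_of H982P.triL .triangular etri htri,
      half_of .triangular _ (show (0 : ℤ) ≤ 0 + 0 by norm_num) etri TH966.AK.Tri.rule rfl
        Pool.Agent.R965.HP.half_tri, fun _ => ?_, fun h => by cases h⟩
    exact dom_of H982P.triL .triangular etri TH966.AK.Tri.rule rfl
      (show 1 ≤ 1 by norm_num) htri Pool.Agent.R965.HP.tri_cl Pool.Agent.R965.HP.tri_poor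
  | hexagonal =>
    refine ⟨Real.sqrt (2 + Real.sqrt 2), by positivity, ?_,
      half_of .hexagonal _ (show (0 : ℤ) ≤ 0 from le_rfl) ehex TH966.AK.Hex.rule rfl
        Pool.Agent.R965.HP.half_hex, fun h => absurd rfl h, fun h => by cases h⟩
    have h1 := root_of H982P.hexL .hexagonal ehex H982P.coord_hex
    rw [Pool.Agent.H976R3.HPL.mu_hex] at h1
    exact h1

end Pool.Agent.Results.MP_df1d0b_pr.ConsecutiveLengths
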