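import Pool.Agent.R965.HP.WinHex
import Pool.Agent.R965.HP.WinHalf
import Pool.Agent.R965.HP.WinShift
import Pool.Agent.TH303.SX2

/-!
# Self-avoiding walks in half-planes and other domains: changes of the number of steps and shifts of
time (total variation)
-/

set_option autoImplicit false

namespace Pool.Agent.Results.MP_df1d0b_pr.InitialPieces

open Filter Topology

/-- the three grids -/
inductive Grid
  | square
  | triangular
  | hexagonal

/-- Adjacency of the grids, in coordinates on `ℤ × ℤ` (brick wall for the hexagonal grid). -/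
def Grid.Adj : Grid → ℤ × ℤ → ℤ × ℤ → Prop
  | .square, p, q => |p.1 - q.1| + |p.2 - q.2| = 1
  | .triangular, p, q =>
    q - p ∈ ({(1, 0), (-1, 0), (0, 1), (0, -1), (1, -1), (-1, 1)} : Set (ℤ × ℤ))
  | .hexagonal, p, q => q - p = (1, 0) ∨ q - p = (-1, 0) ∨ (q - p = (0, 1) ∧ Even (p.1 + p.2)) ∨
    (q - p = (0, -1) ∧ Even (q.1 + q.2))

/-- The points of the plane: with these points the edges have length one. -/
noncomputable def Grid.pt : Grid → ℤ × ℤ → ℂ
  | .square, p => ⟨(p.2 : ℝ), (p.1 : ℝ)⟩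
  | .triangular, p => ⟨((p.1 : ℝ) - (p.2 : ℝ)) / 2, √3 / 2 * ((p.1 : ℝ) + (p.2 : ℝ))⟩
  | .hexagonal, p => ⟨(3 * (p.2 : ℝ) - (((p.1 + p.2) % 2 : ℤ) : ℝ)) / 2, √3 / 2 * (p.1 : ℝ)⟩

/-- the vertices in the closed upper half-plane -/
def Grid.Half (G : Grid) (p : ℤ × ℤ) : Prop := 0 ≤ (G.pt p).im

/-- `1` for the triangular grid, `2` for the two bipartite grids -/
def Grid.s : Grid → ℕ
  | .square => 2
  | .triangular => 1
  | .hexagonal => 2

/-- the `n`-step self-avoiding walks from the origin in the set `D` of vertices; a walk is continued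
by its last point -/
def walks (G : Grid) (D : ℤ × ℤ → Prop) (n : ℕ) : Set (ℕ → ℤ × ℤ) :=
  {γ | γ 0 = 0 ∧ (∀ i < n, G.Adj (γ i) (γ (i + 1))) ∧ (∀ i ≤ n, ∀ j ≤ n, γ i = γ j → i = j) ∧
    (∀ i, D (γ i)) ∧ ∀ i, n ≤ i → γ i = γ n}

/-- the mean of `F` over the `n`-step walks in `D` (there are finitely many) -/
noncomputable def mean (G : Grid) (D : ℤ × ℤ → Prop) (n : ℕ) (F : (ℕ → ℤ × ℤ) → ℝ) : ℝ :=
  (∑ᶠ γ ∈ walks G D n, F γ) / ((walks G D n).ncard : ℝ)

/-- `F` depends only on the first `a` and the last `b` steps of the walk: it has the same value for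
two walks `γ`, `γ'` in `D`, with `m` and `m'` steps, if `γ 0, …, γ a` are the points
`γ' 0, …, γ' a` and `γ (m - b), …, γ m` are the points `γ' (m' - b), …, γ' m'` -/
def DependsOnEnds (G : Grid) (D : ℤ × ℤ → Prop) (a b : ℕ) (F : (ℕ → ℤ × ℤ) → ℝ) : Prop :=
  ∀ m m', a + b ≤ m → a + b ≤ m' → ∀ γ ∈ walks G D m, ∀ γ' ∈ walks G D m',
    (∀ i ≤ a, γ i = γ' i) → (∀ i ≤ b, γ (m - i) = γ' (m' - i)) → F γ = F γ'

/-- The laws of the first `a` and the last `b` steps, for the walks in `D` with `n` and `n + s k`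
steps: (i) all but `ℓ ≥ C (log n)^g` of the steps are seen; (ii) at most half of the steps are
seen. The suprema of the left sides over `F` are the total variation distances. -/
def EndsMerge (G : Grid) (D : ℤ × ℤ → Prop) (g : ℕ) : Prop :=
  ∃ C : ℝ, ∀ n : ℕ, 2 ≤ n → ∀ (k a b : ℕ) (F : (ℕ → ℤ × ℤ) → ℝ), (∀ γ, 0 ≤ F γ ∧ F γ ≤ 1) →
    DependsOnEnds G D a b F →
    (∀ ℓ : ℕ, n = a + ℓ + b → C * Real.log n ^ g ≤ ℓ →
      |mean G D (n + G.s * k) F - mean G D n F| ≤
        C * (√(k * √(Real.log n ^ g / n)) + k / √ℓ)) ∧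
    (2 * (a + b) ≤ n →
      |mean G D (n + G.s * k) F - mean G D n F| ≤ C * √(k * √(Real.log n ^ g / n)))

/-- The law of the piece `γ i, …, γ (i + m)` of the walk in `D` with `n` steps, jointly with the
first `a` and the last `b` steps, for the two starting times `i = a + ℓ` and `i = a + ℓ + s k`. The
supremum of the left side over `f` is the total variation distance. -/
def TimeShift (G : Grid) (D : ℤ × ℤ → Prop) (g : ℕ) : Prop :=
  ∃ C : ℝ, ∀ n : ℕ, 2 ≤ n → ∀ k a ℓ m ℓ' b : ℕ, n = a + ℓ + G.s * k + m + ℓ' + b →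
    C * Real.log n ^ g ≤ ℓ → C * Real.log n ^ g ≤ ℓ' →
    ∀ f : (ℕ → ℤ × ℤ) → (ℕ → ℤ × ℤ) → (ℕ → ℤ × ℤ) → ℝ, (∀ x y z, 0 ≤ f x y z ∧ f x y z ≤ 1) →
      |mean G D n (fun γ => f (fun j => γ (min j a)) (fun j => γ (a + ℓ + G.s * k + min j m))
          (fun j => γ (n - min j b))) -
        mean G D n (fun γ => f (fun j => γ (min j a)) (fun j => γ (a + ℓ + min j m))
          (fun j => γ (n - min j b)))| ≤
        C * (√(k * √(Real.log n ^ g / n)) + k / √ℓ + k / √ℓ')

/-- both properties -/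
def Merging (G : Grid) (D : ℤ × ℤ → Prop) (g : ℕ) : Prop := EndsMerge G D g ∧ TimeShift G D g

/-! ### transfer from the library -/

open Pool.Agent.R965.HP TH966.AK

theorem ends_of (G : Grid) (D : ℤ × ℤ → Prop) {A : ℤ × ℤ → ℤ × ℤ → Prop}
    (e : G.Adj = A) (Z : Rule A) (hs : Z.s = G.s) {μ : ℝ} {g : ℕ} (hg : 1 ≤ g)
    (H : ∃ K K1 C1 : ℝ, WH Z D μ K K1 C1 g) : Merging G D g := by
  subst e
  obtain ⟨K, K1, C1, H⟩ := H
  refine ⟨?_, by
    obtain ⟨C, -, h⟩ := shift_merge H hg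
    rw [hs] at h
    exact ⟨C, h⟩⟩
  obtain ⟨C, hC, h1⟩ := ends_merge H hg
  obtain ⟨C', hC', h2⟩ := ends_half H hg
  rw [hs] at h1 h2
  refine ⟨C + C', fun n hn k a b F hF hE => ⟨fun ℓ hab hℓ => ?_, fun hab => ?_⟩⟩
  · have hlog : 0 ≤ Real.log (n : ℝ) ^ g := pow_nonneg (Real.log_natCast_nonneg n) g
    have h3 := h1 n hn k a b ℓ hab (by nlinarith) F hF hE
    have h4 : 0 ≤ √(k * rt g n) + k / √(ℓ : ℝ) := by positivity
    calc |mean G D (n + G.s * k) F - mean G D n F| ≤ C * (√(k * rt g n) + k / √(ℓ : ℝ)) := h3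
      _ ≤ (C + C') * (√(k * rt g n) + k / √(ℓ : ℝ)) :=
        mul_le_mul_of_nonneg_right (by linarith) h4
  · have h3 := h2 n hn k a b hab F hF hE
    calc |mean G D (n + G.s * k) F - mean G D n F| ≤ C' * √(k * rt g n) := h3
      _ ≤ (C + C') * √(k * rt g n) :=
        mul_le_mul_of_nonneg_right (by linarith) (Real.sqrt_nonneg _)

theorem ncard_eq (G : Grid) {D : ℤ × ℤ → Prop} (h0 : D 0) {A : ℤ × ℤ → ℤ × ℤ → Prop}
    (e : G.Adj = A) (Z : Rule A) (n : ℕ) :
    ((walks G D n).ncard : ℝ) = N (ruleD Z D).sys n := by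
  subst e
  exact ncard_Wn Z h0 n

theorem root_of (L : H982.Lat) (G : Grid) {A : ℤ × ℤ → ℤ × ℤ → Prop}
    (e : G.Adj = A) (Z : Rule A) {φ : ℤ × ℤ → ℤ × ℤ} {R : ℕ → ℤ × ℤ → Prop}
    (H : @H982.Coord L A φ R) :
    Tendsto (fun n : ℕ => ((walks G (fun _ => True) n).ncard : ℝ) ^ (1 / (n : ℝ))) atTop
      (𝓝 (@H982.mu L)) := by
  have h1 := @H982.tendsto_root L
  refine h1.congr fun n => ?_
  have h2 : ((walks G (fun _ => True) n).ncard : ℝ) = @H982.cr' L n := by
    rw [ncard_eq G trivial e Z n, ← card_full Z H n]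
    show (((Kw (AD A (fun _ => True)) n).card : ℕ) : ℝ) = _
    have e2 : AD A (fun _ => True) = A := by
      funext p q
      unfold AD
      simp
    rw [e2]
  rw [h2]

theorem dom_of (L : H982.Lat) (G : Grid) {A : ℤ × ℤ → ℤ × ℤ → Prop}
    (e : G.Adj = A) (Z : Rule A) (hs : Z.s = G.s) (hs1 : 1 ≤ Z.s)
    {φ : ℤ × ℤ → ℤ × ℤ} {R : ℕ → ℤ × ℤ → Prop} (H : @H982.Coord L A φ R)
    (hcl : ∀ D : ℤ × ℤ → Prop, ∀ U U', Z.T U U' → (∀ x ∈ U', D x) → ∀ x ∈ U, D x)
    (hp : ∃ (M0 : ℕ) (ρ C0 : ℝ), 1 ≤ M0 ∧ 0 ≤ ρ ∧ ρ < @H982.mu L ∧ ∀ n : ℕ,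
      (((Kw A n).filter (fun w => M0 * (Z.B w).card ≤ n)).card : ℝ) ≤ C0 * ρ ^ n)
    (hA : ∀ c p q : ℤ × ℤ, A p q → A (p + c) (q + c))
    (hsub : ∀ U U', Z.T U U' → ∀ x ∈ U, x ∈ U')
    (htr : ∀ c U U', Z.T U U' → Z.T (tr c U) (tr c U'))
    (D : ℤ × ℤ → Prop) (h0 : D 0) (g : ℕ) (K : ℝ) (hg : 2 ≤ g)
    (hlow : ∀ n : ℕ, 2 ≤ n → @H982.mu L ^ n * Real.exp (-(K * Real.log n ^ g)) ≤
      ((walks G D n).ncard : ℝ)) : Merging G D g := by
  refine ends_of G D e Z hs (by omega) (wh_dom Z H hs1 D h0 (hcl D) hp hA hsub htr hg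
    (K := K) fun n hn => ?_)
  refine (hlow n hn).trans (le_of_eq ?_)
  exact ncard_eq G h0 e Z n

theorem half_square : Grid.square.Half = fun p => 0 ≤ p.1 := by
  funext p
  show ((0 : ℝ) ≤ (p.1 : ℝ)) = _
  rw [eq_iff_iff]
  exact ⟨fun h => by exact_mod_cast h, fun h => by exact_mod_cast h⟩

theorem half_triangular : Grid.triangular.Half = fun p => 0 ≤ p.1 + p.2 := by
  funext p
  show ((0 : ℝ) ≤ √3 / 2 * ((p.1 : ℝ) + (p.2 : ℝ))) = _
  have h3 : (0 : ℝ) < √3 / 2 := by positivity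
  rw [eq_iff_iff, mul_nonneg_iff_of_pos_left h3]
  exact ⟨fun h => by exact_mod_cast h, fun h => by exact_mod_cast h⟩

theorem half_hexagonal : Grid.hexagonal.Half = fun p => 0 ≤ p.1 := by
  funext p
  show ((0 : ℝ) ≤ √3 / 2 * (p.1 : ℝ)) = _
  have h3 : (0 : ℝ) < √3 / 2 := by positivity
  rw [eq_iff_iff, mul_nonneg_iff_of_pos_left h3]
  exact ⟨fun h => by exact_mod_cast h, fun h => by exact_mod_cast h⟩

/-- **Theorem.** For each of the three grids let `μ` be the connective constant, and `s = 2` for the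
square and the hexagonal grid, `s = 1` for the triangular grid.
(1) There is `C` such that for the uniform self-avoiding walks from `0` in the closed upper
half-plane and all `n ≥ 2`, `k ≥ 0`:
(i) if `a + ℓ + b = n` and `ℓ ≥ C (log n)²`, the total variation distance of the joint laws of the
first `a` and the last `b` steps of the walks with `n` and with `n + s k` steps is at most
`C ((k log n / √n)^(1/2) + k / √ℓ)`; if `2 (a + b) ≤ n`, it is at most `C (k log n / √n)^(1/2)`;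
(ii) if `n = a + ℓ + s k + m + ℓ' + b` and `ℓ, ℓ' ≥ C (log n)²`, then for the walk `γ` with `n` steps
the joint laws of the first `a` steps, the last `b` steps and the piece `γ i, …, γ (i + m)`, for
`i = a + ℓ` and for `i = a + ℓ + s k`, have total variation distance at most
`C ((k log n / √n)^(1/2) + k / √ℓ + k / √ℓ')`.
(2) The same with `(log n)^g` and `((log n)^g / n)^(1/2)` in place of `(log n)²` and `log n / √n`,
for the square and the triangular grid and every set `D` of vertices which contains `0` and has at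
least `μ ^ n exp (- K (log n)^g)` walks with `n` steps for all `n ≥ 2` (`g ≥ 2`).
(3) On the square grid this holds with `g = 3` for every `D` which contains the points with
`|x| ≤ η y`, for some `0 < η ≤ 1`. -/
theorem result : ∀ G : Grid, ∃ μ : ℝ, 0 < μ ∧
    Tendsto (fun n : ℕ => ((walks G (fun _ => True) n).ncard : ℝ) ^ (1 / (n : ℝ))) atTop (𝓝 μ) ∧
    Merging G G.Half 2 ∧
    (G ≠ .hexagonal → ∀ D : ℤ × ℤ → Prop, D 0 → ∀ (g : ℕ) (K : ℝ), 2 ≤ g →
      (∀ n : ℕ, 2 ≤ n → μ ^ n * Real.exp (-(K * Real.log n ^ g)) ≤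
        ((walks G D n).ncard : ℝ)) → Merging G D g) ∧
    (G = .square → ∀ η : ℝ, 0 < η → η ≤ 1 → ∀ D : ℤ × ℤ → Prop,
      (∀ p : ℤ × ℤ, |(G.pt p).re| ≤ η * (G.pt p).im → D p) → Merging G D 3) := by
  have esq : Grid.square.Adj = Pool.Agent.R965.HP.Sq.A := rfl
  have etri : Grid.triangular.Adj = TH966.AK.Tri.A := TH966.AK.adjT_eq
  have ehex : Grid.hexagonal.Adj = TH966.AK.Hex.A := rfl
  obtain ⟨φ, R, htri, -⟩ := Pool.Agent.R965.HP.coord_triA
  have hdsq := dom_of H982P.sqL .square esq Pool.Agent.R965.HP.Sq.rule rfl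
    (show 1 ≤ 2 by norm_num) H982P.coord_sq Pool.Agent.R965.HP.sq_cl
    Pool.Agent.R965.HP.sq_poor sq_hA sq_hsub sq_htr
  intro G
  cases G with
  | square =>
    refine ⟨@H982.mu H982P.sqL, @H982.mu_pos H982P.sqL,
      root_of H982P.sqL .square esq Pool.Agent.R965.HP.Sq.rule H982P.coord_sq, ?_,
      fun _ => hdsq, ?_⟩
    · rw [half_square]
      exact ends_of .square _ esq Pool.Agent.R965.HP.Sq.rule rfl one_le_two
        (wh_half (L := H982P.sqL) _ H982P.coord_sq _ (show (0 : ℤ) ≤ 0 from le_rfl)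
          (pw_sub (L := H982P.sqL) _ (show (0 : ℤ) ≤ 0 from le_rfl) sq_poor sq_hA sq_hsub
            sq_htr) Pool.Agent.R965.HP.half_sq)
    · intro _ η hη hη1 D hD
      have hD' : ∀ p : ℤ × ℤ, |(p.2 : ℝ)| ≤ η * (p.1 : ℝ) → D p := hD
      have h0 : D 0 := hD' 0 (by simp)
      obtain ⟨K, hK⟩ := Pool.Agent.TH303.SX2.wedge_final
      refine hdsq D h0 3 (K / η) (by norm_num) fun n hn => ?_
      have h1 := hK η hη hη1 n hn
      have hw : ((Pool.Agent.H122R3.SX.walks n).ncard : ℝ) = @H982.cr' H982P.sqL n := by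
        rw [← @H982.ncard_walks H982P.sqL _ _ _ H982P.coord_sq]
        rfl
      have h2 := @H982.mu_pow_le H982P.sqL n
      rw [← hw] at h2
      have hmp : 0 < @H982.mu H982P.sqL ^ n := pow_pos (@H982.mu_pos H982P.sqL) n
      have hpos : (0 : ℝ) < ((Pool.Agent.H122R3.SX.walks n).ncard : ℝ) := hmp.trans_le h2
      rw [le_div_iff₀ hpos] at h1
      rw [ncard_eq .square h0 esq Pool.Agent.R965.HP.Sq.rule n,
        ← ncard_Wk Pool.Agent.R965.HP.Sq.rule h0 n]
      have hfin : (Wk Pool.Agent.R965.HP.Sq.A D n).Finite :=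
        Wk_finite Pool.Agent.R965.HP.Sq.rule h0 n
      have h3 : ({f | f ∈ Pool.Agent.H122R3.SX.walks n ∧
          ∀ i, |((f i).1 : ℝ)| ≤ η * (f i).2}.ncard : ℝ) ≤
          ((Wk Pool.Agent.R965.HP.Sq.A D n).ncard : ℝ) := by
        have hinj : Function.Injective (fun f : Fin (n + 1) → ℤ × ℤ => fun i => (f i).swap) := by
          intro f f' h
          funext i
          have := congrFun h i
          exact Prod.swap_injective this
        have hsub : (fun f : Fin (n + 1) → ℤ × ℤ => fun i => (f i).swap) ''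
            {f | f ∈ Pool.Agent.H122R3.SX.walks n ∧ ∀ i, |((f i).1 : ℝ)| ≤ η * (f i).2} ⊆
            Wk Pool.Agent.R965.HP.Sq.A D n := by
          rintro _ ⟨f, hf, rfl⟩
          refine ⟨?_, ?_, fun i => ?_, fun i => hD' _ (hf.2 i)⟩
          · show (f 0).swap = 0
            rw [hf.1.1]
            rfl
          · intro i j hij
            exact hf.1.2.1 (Prod.swap_injective hij)
          · have h4 := hf.1.2.2 i
            show |(f i.castSucc).2 - (f i.succ).2| + |(f i.castSucc).1 - (f i.succ).1| = 1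
            rw [add_comm]
            exact h4
        rw [← Set.ncard_image_of_injective _ hinj]
        exact_mod_cast Set.ncard_le_ncard hsub hfin
      refine le_trans ?_ (h1.trans h3)
      rw [mul_comm]
      exact mul_le_mul_of_nonneg_left h2 (Real.exp_pos _).le
  | triangular =>
    have h00 : (0 : ℤ) ≤ 0 + 0 := by norm_num
    refine ⟨@H982.mu H982P.triL, @H982.mu_pos H982P.triL,
      root_of H982P.triL .triangular etri TH966.AK.Tri.rule htri, ?_, fun _ => ?_,
      (fun h => by cases h)⟩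
    · rw [half_triangular]
      exact ends_of .triangular _ etri TH966.AK.Tri.rule rfl one_le_two
        (wh_half (L := H982P.triL) _ htri _ h00
          (pw_sub (L := H982P.triL) _ h00 tri_poor tri_hA tri_hsub tri_htr)
          Pool.Agent.R965.HP.half_tri)
    · exact dom_of H982P.triL .triangular etri TH966.AK.Tri.rule rfl
        (show 1 ≤ 1 by norm_num) htri Pool.Agent.R965.HP.tri_cl Pool.Agent.R965.HP.tri_poor
        tri_hA tri_hsub tri_htr
  | hexagonal =>
    refine ⟨Real.sqrt (2 + Real.sqrt 2), by positivity, ?_, ?_, fun h => absurd rfl h,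
      (fun h => by cases h)⟩
    · have h1 := root_of H982P.hexL .hexagonal ehex TH966.AK.Hex.rule H982P.coord_hex
      rw [Pool.Agent.H976R3.HPL.mu_hex] at h1
      exact h1
    · rw [half_hexagonal]
      exact ends_of .hexagonal _ ehex TH966.AK.Hex.rule rfl one_le_two wh_hex

end Pool.Agent.Results.MP_df1d0b_pr.InitialPieces
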