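import Pool.Agent.R965.HP.ShapeFin
import Pool.Agent.TH303.SX2

/-!
# Half-plane self-avoiding walks: merging of the laws of the whole walk for different lengths, and
the set of the limit laws of the rescaled walk
-/

set_option autoImplicit false

namespace Pool.Agent.Results.MP_df1d0b_pr.ShapeMerging

open Filter Topology MeasureTheory
open scoped BoundedContinuousFunction

/-- the three grids -/
inductive Grid
  | square
  | triangular
  | hexagonal

/-- Adjacency of the grids, in coordinates on `ℤ × ℤ` (brick wall for the hexagonal grid). -/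
def Grid.Adj : Grid → ℤ × ℤ → ℤ × ℤ → Prop
  | .square, p, q => |p.1 - q.1| + |p.2 - q.2| = 1
  | .triangular, p, q =>
    q - p ∈ ({(1, 0), (-1, 0), (0, 1), (0, -1), (1, -1), (-1, 1)} : Set (ℤ × ℤ))
  | .hexagonal, p, q => q - p = (1, 0) ∨ q - p = (-1, 0) ∨ (q - p = (0, 1) ∧ Even (p.1 + p.2)) ∨
    (q - p = (0, -1) ∧ Even (q.1 + q.2))

/-- The points of the plane: with these points the edges have length one. -/
noncomputable def Grid.pt : Grid → ℤ × ℤ → ℂ
  | .square, p => ⟨(p.2 : ℝ), (p.1 : ℝ)⟩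
  | .triangular, p => ⟨((p.1 : ℝ) - (p.2 : ℝ)) / 2, √3 / 2 * ((p.1 : ℝ) + (p.2 : ℝ))⟩
  | .hexagonal, p => ⟨(3 * (p.2 : ℝ) - (((p.1 + p.2) % 2 : ℤ) : ℝ)) / 2, √3 / 2 * (p.1 : ℝ)⟩

/-- the vertices in the closed upper half-plane `Im z ≥ 0` -/
def Grid.Half : Grid → ℤ × ℤ → Prop
  | .square, p => 0 ≤ p.1
  | .triangular, p => 0 ≤ p.1 + p.2
  | .hexagonal, p => 0 ≤ p.1

/-- `1` for the triangular grid, `2` for the two bipartite grids -/
def Grid.s : Grid → ℕ
  | .square => 2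
  | .triangular => 1
  | .hexagonal => 2

/-- `1` for the square and the triangular grid, `2` for the hexagonal grid -/
def Grid.q : Grid → ℕ
  | .square => 1
  | .triangular => 1
  | .hexagonal => 2

/-- the `n`-step self-avoiding walks from the origin in the set `D` of vertices; a walk is continued
by its last point -/
def walks (G : Grid) (D : ℤ × ℤ → Prop) (n : ℕ) : Set (ℕ → ℤ × ℤ) :=
  {γ | γ 0 = 0 ∧ (∀ i < n, G.Adj (γ i) (γ (i + 1))) ∧ (∀ i ≤ n, ∀ j ≤ n, γ i = γ j → i = j) ∧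
    (∀ i, D (γ i)) ∧ ∀ i, n ≤ i → γ i = γ n}

/-- the mean of `F` over the `n`-step walks in `D` (there are finitely many) -/
noncomputable def mean (G : Grid) (D : ℤ × ℤ → Prop) (n : ℕ) (F : (ℕ → ℤ × ℤ) → ℝ) : ℝ :=
  (∑ᶠ γ ∈ walks G D n, F γ) / ((walks G D n).ncard : ℝ)

/-- `F` differs by at most `δ` for any two walks in `D` with at least `L` steps whose lengths differ
by at most `R` and whose coordinates at all times differ by at most `R` -/
def Varies (G : Grid) (D : ℤ × ℤ → Prop) (L R : ℕ) (δ : ℝ) (F : (ℕ → ℤ × ℤ) → ℝ) : Prop :=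
  ∀ m m', L ≤ m → L ≤ m' → m ≤ m' + R → m' ≤ m + R →
    ∀ γ ∈ walks G D m, ∀ γ' ∈ walks G D m',
      (∀ i, |(γ i).1 - (γ' i).1| ≤ R ∧ |(γ i).2 - (γ' i).2| ≤ R) → |F γ - F γ'| ≤ δ

/-- the comparison of the lengths `n` and `n + s k`, with the rate `ε n` -/
def Window (G : Grid) (D : ℤ × ℤ → Prop) (ε : ℕ → ℝ) : Prop :=
  ∃ C : ℝ, ∀ n : ℕ, 2 ≤ n → ∀ (k : ℕ) (F : (ℕ → ℤ × ℤ) → ℝ) (δ : ℝ), 0 ≤ δ →
    (∀ γ, 0 ≤ F γ ∧ F γ ≤ 1) → Varies G D n 10 δ F →
    |mean G D (n + G.s * k) F - mean G D n F| ≤ C * √(k * ε n) + C * k * δ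

/-- the comparison of the lengths `n` and `n + q`, without a rate -/
def Merges (G : Grid) (D : ℤ × ℤ → Prop) : Prop :=
  ∀ ε : ℝ, 0 < ε → ∃ (R n0 : ℕ) (δ : ℝ), 0 < δ ∧ ∀ n : ℕ, n0 ≤ n →
    ∀ F : (ℕ → ℤ × ℤ) → ℝ, (∀ γ, 0 ≤ F γ ∧ F γ ≤ 1) → Varies G D (n - R) R δ F →
    |mean G D (n + G.q) F - mean G D n F| ≤ ε

/-- the points of the walk, divided by the diameter of the walk -/
noncomputable def scaled (G : Grid) (γ : ℕ → ℤ × ℤ) (i : ℕ) : ℂ :=
  (Metric.diam (Set.range fun j => G.pt (γ j)))⁻¹ • G.pt (γ i)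

/-- the polygonal line through `x 0, …, x (n + 1)` -/
def polygon (x : ℕ → ℂ) (n : ℕ) : Set ℂ :=
  ⋃ i ∈ Finset.range (n + 1), segment ℝ (x i) (x (i + 1))

/-- the polygonal line as a nonempty compact set -/
def trace (x : ℕ → ℂ) (n : ℕ) : TopologicalSpace.NonemptyCompacts ℂ :=
  ⟨⟨polygon x n, Pool.Agent.R965.HP.poly_compact x n⟩, Pool.Agent.R965.HP.poly_nonempty x n⟩

/-- the space of the shapes, compact sets and sequences of points -/
abbrev Shape : Type := TopologicalSpace.NonemptyCompacts ℂ × (ℕ → ℂ)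

/-- the shape of an `n`-step walk: the polygonal path through its vertices, divided by its diameter,
and the rescaled positions at the times `⌊n t₀⌋, ⌊n t₁⌋, …` -/
noncomputable def shape (G : Grid) (t : ℕ → unitInterval) (n : ℕ) (γ : ℕ → ℤ × ℤ) : Shape :=
  (trace (scaled G γ) n, fun i => scaled G γ ⌊(n : ℝ) * (t i : ℝ)⌋₊)

section laws

variable [MeasurableSpace (TopologicalSpace.NonemptyCompacts ℂ)]

/-- the laws of the shapes of the uniform half-plane walks with `φ 0, φ 1, …` steps converge weakly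
to `ν` -/
def ConvergesAlong (G : Grid) (t : ℕ → unitInterval) (φ : ℕ → ℕ) (ν : ProbabilityMeasure Shape) :
    Prop :=
  ∀ f : Shape →ᵇ ℝ, Tendsto (fun j => mean G G.Half (φ j) (fun γ => f (shape G t (φ j) γ))) atTop
    (𝓝 (∫ x, f x ∂(ν : Measure Shape)))

/-- the limit laws of the shapes of the uniform half-plane walks along the lengths
`n = p (mod q)` -/
def limitLaws (G : Grid) (t : ℕ → unitInterval) (p : ℕ) : Set (ProbabilityMeasure Shape) :=
  {ν | ∃ φ : ℕ → ℕ, StrictMono φ ∧ (∀ j, φ j % G.q = p) ∧ ConvergesAlong G t φ ν}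

end laws

/-! ### transfer from the library -/

open Pool.Agent.R965.HP TH966.AK

theorem window_of (G : Grid) (D : ℤ × ℤ → Prop) (h0 : D 0) {A : ℤ × ℤ → ℤ × ℤ → Prop}
    (e : G.Adj = A) (Z : Rule A) (hs : Z.s = G.s) (hρ : Z.ρ + Z.s ≤ 10)
    {μ K : ℝ} {a : ℕ} (H : Gr (ruleD Z D).sys μ K a) (ha : 1 ≤ a) :
    Window G D (fun n => Real.sqrt (Real.log n ^ a / n)) := by
  subst e
  obtain ⟨C, -, hC⟩ := window_D Z h0 H ha
  rw [hs] at hC
  refine ⟨C, fun n hn k F δ hδ hF hV => hC n hn k F δ hδ hF ?_⟩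
  intro m m' a1 a2 _ _ a5 a6 γ hγ γ' hγ' a7
  refine hV m m' a1 a2 (by omega) (by omega) γ hγ γ' hγ' fun i => ?_
  have h1 := a7 i
  have h2 : ((Z.ρ + G.s : ℕ) : ℤ) ≤ ((10 : ℕ) : ℤ) := by
    rw [← hs]
    exact_mod_cast hρ
  exact ⟨h1.1.trans h2, h1.2.trans h2⟩

theorem rate_two (n : ℕ) : Real.sqrt (Real.log n ^ 2 / n) = Real.log n / Real.sqrt n := by
  rw [Real.sqrt_div' _ (Nat.cast_nonneg n), Real.sqrt_sq (Real.log_natCast_nonneg n)]

theorem half_of (G : Grid) (D : ℤ × ℤ → Prop) (h0 : D 0) {A : ℤ × ℤ → ℤ × ℤ → Prop}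
    (e : G.Adj = A) (Z : Rule A) (hs : Z.s = G.s) (hρ : Z.ρ + Z.s ≤ 10)
    {μ : ℝ} (H : ∃ K : ℝ, Gr (ruleD Z D).sys μ K 2) :
    Window G D (fun n => Real.log n / Real.sqrt n) := by
  obtain ⟨K, hK⟩ := H
  have h := window_of G D h0 e Z hs hρ hK one_le_two
  simp only [rate_two] at h
  exact h

theorem ncard_eq (G : Grid) {D : ℤ × ℤ → Prop} (h0 : D 0) {A : ℤ × ℤ → ℤ × ℤ → Prop}
    (e : G.Adj = A) (Z : Rule A) (n : ℕ) :
    ((walks G D n).ncard : ℝ) = N (ruleD Z D).sys n := by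
  subst e
  exact ncard_Wn Z h0 n

theorem dom_of (L : H982.Lat) (G : Grid) {A : ℤ × ℤ → ℤ × ℤ → Prop}
    (e : G.Adj = A) (Z : Rule A) (hs : Z.s = G.s) (hρ : Z.ρ + Z.s ≤ 10) (hs1 : 1 ≤ Z.s)
    {φ : ℤ × ℤ → ℤ × ℤ} {R : ℕ → ℤ × ℤ → Prop} (H : @H982.Coord L A φ R)
    (hcl : ∀ D : ℤ × ℤ → Prop, ∀ U U', Z.T U U' → (∀ x ∈ U', D x) → ∀ x ∈ U, D x)
    (hp : ∃ (M0 : ℕ) (ρ C0 : ℝ), 1 ≤ M0 ∧ 0 ≤ ρ ∧ ρ < @H982.mu L ∧ ∀ n : ℕ,
      (((Kw A n).filter (fun w => M0 * (Z.B w).card ≤ n)).card : ℝ) ≤ C0 * ρ ^ n)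
    (D : ℤ × ℤ → Prop) (h0 : D 0) (a : ℕ) (K : ℝ) (ha : 2 ≤ a)
    (hlow : ∀ n : ℕ, 2 ≤ n → @H982.mu L ^ n * Real.exp (-(K * Real.log n ^ a)) ≤
      ((walks G D n).ncard : ℝ)) :
    Window G D (fun n => Real.sqrt (Real.log n ^ a / n)) := by
  obtain ⟨K', hK'⟩ := gr_dom Z H hs1 D h0 (hcl D) hp (K := K) ha (fun n hn => by
    refine (hlow n hn).trans (le_of_eq ?_)
    exact ncard_eq G h0 e Z n)
  exact window_of G D h0 e Z hs hρ hK' (by omega)

theorem merges_of (G : Grid) {A : ℤ × ℤ → ℤ × ℤ → Prop} (e : G.Adj = A)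
    {D : ℤ × ℤ → Prop} (M : Merge A D G.q) : Merges G D := by
  subst e
  exact M

theorem root_of (L : H982.Lat) (G : Grid) {A : ℤ × ℤ → ℤ × ℤ → Prop}
    (e : G.Adj = A) (Z : Rule A) {φ : ℤ × ℤ → ℤ × ℤ} {R : ℕ → ℤ × ℤ → Prop}
    (H : @H982.Coord L A φ R) :
    Tendsto (fun n : ℕ => ((walks G (fun _ => True) n).ncard : ℝ) ^ (1 / (n : ℝ))) atTop
      (𝓝 (@H982.mu L)) := by
  have h1 := @H982.tendsto_root L
  refine h1.congr fun n => ?_
  have h2 : ((walks G (fun _ => True) n).ncard : ℝ) = @H982.cr' L n := by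
    rw [ncard_eq G trivial e Z n, ← card_full Z H n]
    show (((Kw (AD A (fun _ => True)) n).card : ℕ) : ℝ) = _
    have e2 : AD A (fun _ => True) = A := by
      funext p q
      unfold AD
      simp
    rw [e2]
  rw [h2]

section shapes

variable [MeasurableSpace (TopologicalSpace.NonemptyCompacts ℂ)]
  [BorelSpace (TopologicalSpace.NonemptyCompacts ℂ)]

theorem converges_iff (G : Grid) (Z : Rule G.Adj) (h0 : G.Half 0)
    (hc : ∀ n, 0 < (Kw (AD G.Adj G.Half) n).card) (t : ℕ → unitInterval) (φ : ℕ → ℕ)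
    (ν : ProbabilityMeasure Shape) :
    ConvergesAlong G t φ ν ↔ Tendsto (fun j => law hc G.pt t (φ j)) atTop (𝓝 ν) := by
  rw [ProbabilityMeasure.tendsto_iff_forall_integral_tendsto]
  unfold ConvergesAlong
  refine forall_congr' fun f => ?_
  simp only [integral_law Z h0 hc]
  exact Iff.rfl

theorem limitLaws_eq (G : Grid) (Z : Rule G.Adj) (h0 : G.Half 0)
    (hc : ∀ n, 0 < (Kw (AD G.Adj G.Half) n).card) (t : ℕ → unitInterval) {p : ℕ}
    (hp : p < G.q) :
    limitLaws G t p = Pool.Agent.R956.Lim (fun j => law hc G.pt t (G.q * j + p)) := by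
  have hq : 0 < G.q := by omega
  ext ν
  constructor
  · rintro ⟨φ, h1, h2, h3⟩
    rw [converges_iff G Z h0 hc] at h3
    have e : ∀ j, φ j = G.q * (φ j / G.q) + p := fun j => by
      have := Nat.div_add_mod (φ j) G.q
      rw [h2 j] at this
      exact this.symm
    refine ⟨fun j => φ j / G.q, ?_, ?_⟩
    · intro i j hij
      have h4 := h1 hij
      rw [e i, e j] at h4
      have h5 : G.q * (φ i / G.q) < G.q * (φ j / G.q) := by omega
      exact Nat.lt_of_mul_lt_mul_left h5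
    · refine h3.congr fun j => ?_
      simp only [Function.comp_apply]
      rw [← e j]
  · rintro ⟨ψ, h1, h2⟩
    refine ⟨fun j => G.q * ψ j + p, ?_, fun j => ?_, ?_⟩
    · intro i j hij
      have := Nat.mul_lt_mul_of_pos_left (h1 hij) hq
      simp only
      omega
    · simp only
      rw [Nat.mul_add_mod, Nat.mod_eq_of_lt hp]
    · rw [converges_iff G Z h0 hc]
      exact h2

/-- the statement about the shapes -/
def ShapeStatement (G : Grid) : Prop :=
  ∀ (t : ℕ → unitInterval) (p : ℕ), p < G.q →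
    (∀ φ : ℕ → ℕ, StrictMono φ → (∀ j, φ j % G.q = p) →
      ∃ ν ∈ limitLaws G t p, ∃ ψ : ℕ → ℕ, StrictMono ψ ∧ ConvergesAlong G t (φ ∘ ψ) ν) ∧
    IsCompact (limitLaws G t p) ∧ IsConnected (limitLaws G t p) ∧
    ((∃ ν : ProbabilityMeasure Shape, ConvergesAlong G t (fun j => G.q * j + p) ν) ∨
      ¬ (limitLaws G t p).Countable) ∧
    ∀ ν ∈ limitLaws G t p, (ν : Measure Shape) {x | Metric.diam (x.1 : Set ℂ) = 1 ∧
      (0 : ℂ) ∈ (x.1 : Set ℂ) ∧ (x.1 : Set ℂ) ⊆ {z | 0 ≤ z.im}} = 1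

theorem shape_of (G : Grid) (Z : Rule G.Adj) (h0 : G.Half 0)
    {μ K : ℝ} {a : ℕ} (Gr0 : Gr (ruleD Z G.Half).sys μ K a) (M : Merge G.Adj G.Half G.q)
    (hq : 1 ≤ G.q) (H : Emb G.pt) (hD : ∀ p, G.Half p → 0 ≤ (G.pt p).im) :
    ShapeStatement G := by
  have hc : ∀ n, 0 < (Kw (AD G.Adj G.Half) n).card := by
    intro n
    have h1 := Gr0.pos n
    have h2 : N (ruleD Z G.Half).sys n = ((Kw (AD G.Adj G.Half) n).card : ℝ) := rfl
    rw [h2] at h1
    exact_mod_cast h1
  intro t p hp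
  rw [limitLaws_eq G Z h0 hc t hp]
  obtain ⟨h1, h2, h3, h4, h5⟩ := shape_struct Z h0 hc hq M H t p
  refine ⟨fun φ hφ hφp => ?_, h2, ⟨h1, h3⟩, ?_, fun ν hν => mass_good Z h0 hc hq H hD t p hν⟩
  · have e : ∀ j, φ j = G.q * (φ j / G.q) + p := fun j => by
      have := Nat.div_add_mod (φ j) G.q
      rw [hφp j] at this
      exact this.symm
    obtain ⟨ν, hν, ψ, hψ, h6⟩ := h4 (fun j => φ j / G.q) (by
      intro i j hij
      have h7 := hφ hij
      rw [e i, e j] at h7
      have h8 : G.q * (φ i / G.q) < G.q * (φ j / G.q) := by omega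
      exact Nat.lt_of_mul_lt_mul_left h8)
    refine ⟨ν, hν, ψ, hψ, ?_⟩
    rw [converges_iff G Z h0 hc]
    refine h6.congr fun j => ?_
    simp only [Function.comp_apply]
    rw [← e (ψ j)]
  · rcases h5 with ⟨ν, hν⟩ | h5
    · left
      refine ⟨ν, ?_⟩
      rw [converges_iff G Z h0 hc]
      exact hν
    · exact Or.inr h5

end shapes

/-- **Theorem.** For each of the three grids let `μ` be the connective constant.
(1) There is `C` such that for the uniform self-avoiding walks from `0` in the closed upper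
half-plane, all `n ≥ 2`, `k ≥ 0` and all `F` with values in `[0, 1]` which change by at most `δ` if
the walk is changed by at most `10` (in length and in the supremum distance), the means of `F` for
the walks with `n + s k` and `n` steps differ by at most `C (k log n / √n)^(1/2) + C k δ`.
(2) The same with `((log n)^a / n)^(1/2)` in place of `log n / √n`, for the square and the triangular
grid and every set `D` of vertices which contains `0` and has at least `μ ^ n exp (- K (log n)^a)`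
walks with `n` steps, for all `n ≥ 2`, `a ≥ 2`; on the square grid with `a = 3` for every `D` which
contains the points with `|x| ≤ η y`, for some `0 < η ≤ 1`.
(3) In the half-plane, for the lengths `n` and `n + q`, `q = 1` for the square and the triangular
grid and `q = 2` for the hexagonal grid: the difference of the means tends to zero, uniformly over
the functions `F` which change little if the walk is changed by a bounded amount.
(4) For the rescaled half-plane walk (diameter one; its trace and its positions at the times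
`t₀ n, t₁ n, …`), and `p < q`: the weak limits along the lengths `n = p (mod q)` form a nonempty
compact connected set, every sequence of lengths has a subsequence with a limit, the laws converge
along all these lengths or there are uncountably many limit laws, and all limit laws are carried by
compact sets of diameter one in the closed upper half-plane which contain `0`. -/
theorem result [MeasurableSpace (TopologicalSpace.NonemptyCompacts ℂ)]
    [BorelSpace (TopologicalSpace.NonemptyCompacts ℂ)] : ∀ G : Grid, ∃ μ : ℝ, 0 < μ ∧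
    Tendsto (fun n : ℕ => ((walks G (fun _ => True) n).ncard : ℝ) ^ (1 / (n : ℝ))) atTop (𝓝 μ) ∧
    Window G G.Half (fun n => Real.log n / Real.sqrt n) ∧
    (G ≠ .hexagonal → ∀ D : ℤ × ℤ → Prop, D 0 → ∀ (a : ℕ) (K : ℝ), 2 ≤ a →
      (∀ n : ℕ, 2 ≤ n → μ ^ n * Real.exp (-(K * Real.log n ^ a)) ≤
        ((walks G D n).ncard : ℝ)) →
      Window G D (fun n => Real.sqrt (Real.log n ^ a / n))) ∧
    (G = .square → ∀ η : ℝ, 0 < η → η ≤ 1 → ∀ D : ℤ × ℤ → Prop,
      (∀ p : ℤ × ℤ, |(p.1 : ℝ)| ≤ η * (p.2 : ℝ) → D p) →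
      Window G D (fun n => Real.sqrt (Real.log n ^ 3 / n))) ∧
    Merges G G.Half ∧ ShapeStatement G := by
  have esq : Grid.square.Adj = Pool.Agent.R965.HP.Sq.A := rfl
  have etri : Grid.triangular.Adj = TH966.AK.Tri.A := TH966.AK.adjT_eq
  have ehex : Grid.hexagonal.Adj = TH966.AK.Hex.A := rfl
  obtain ⟨φ, R, htri, -⟩ := Pool.Agent.R965.HP.coord_triA
  have hdsq := dom_of H982P.sqL .square esq Pool.Agent.R965.HP.Sq.rule rfl
    (show 2 + 2 ≤ 10 by norm_num)
    (show 1 ≤ 2 by norm_num) H982P.coord_sq Pool.Agent.R965.HP.sq_cl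
    Pool.Agent.R965.HP.sq_poor
  have hs3 : 0 ≤ √3 / 2 := by positivity
  intro G
  cases G with
  | square =>
    have hm : Merge Grid.square.Adj Grid.square.Half Grid.square.q := merge_sq
    obtain ⟨K0, G0⟩ := gr_sq
    refine ⟨@H982.mu H982P.sqL, @H982.mu_pos H982P.sqL,
      root_of H982P.sqL .square esq Pool.Agent.R965.HP.Sq.rule H982P.coord_sq,
      half_of .square _ (show (0 : ℤ) ≤ 0 from le_rfl) esq Pool.Agent.R965.HP.Sq.rule rfl
        (show 2 + 2 ≤ 10 by norm_num) Pool.Agent.R965.HP.half_sq, fun _ => hdsq, ?_,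
      merges_of .square esq merge_sq,
      shape_of .square Pool.Agent.R965.HP.Sq.rule (show (0 : ℤ) ≤ 0 from le_rfl) G0 hm
        (show 1 ≤ 1 from le_rfl) emb_sq fun p hp => ?_⟩
    · intro _ η hη hη1 D hD
      have h0 : D 0 := hD 0 (by simp)
      obtain ⟨K, hK⟩ := Pool.Agent.TH303.SX2.wedge_final
      refine hdsq D h0 3 (K / η) (by norm_num) fun n hn => ?_
      have h1 := hK η hη hη1 n hn
      have hw : ((Pool.Agent.H122R3.SX.walks n).ncard : ℝ) = @H982.cr' H982P.sqL n := by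
        rw [← @H982.ncard_walks H982P.sqL _ _ _ H982P.coord_sq]
        rfl
      have h2 := @H982.mu_pow_le H982P.sqL n
      rw [← hw] at h2
      have hmp : 0 < @H982.mu H982P.sqL ^ n := pow_pos (@H982.mu_pos H982P.sqL) n
      have hpos : (0 : ℝ) < ((Pool.Agent.H122R3.SX.walks n).ncard : ℝ) := hmp.trans_le h2
      rw [le_div_iff₀ hpos] at h1
      rw [ncard_eq .square h0 esq Pool.Agent.R965.HP.Sq.rule n,
        ← ncard_Wk Pool.Agent.R965.HP.Sq.rule h0 n]
      have hfin : (Wk Pool.Agent.R965.HP.Sq.A D n).Finite :=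
        Wk_finite Pool.Agent.R965.HP.Sq.rule h0 n
      have h3 : ({f | f ∈ Pool.Agent.H122R3.SX.walks n ∧
          ∀ i, |((f i).1 : ℝ)| ≤ η * (f i).2}.ncard : ℝ) ≤
          ((Wk Pool.Agent.R965.HP.Sq.A D n).ncard : ℝ) := by
        have hsub : {f | f ∈ Pool.Agent.H122R3.SX.walks n ∧
            ∀ i, |((f i).1 : ℝ)| ≤ η * (f i).2} ⊆ Wk Pool.Agent.R965.HP.Sq.A D n := by
          intro f hf
          exact ⟨hf.1.1, hf.1.2.1, hf.1.2.2, fun i => hD _ (hf.2 i)⟩
        exact_mod_cast Set.ncard_le_ncard hsub hfin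
      refine le_trans ?_ (h1.trans h3)
      rw [mul_comm]
      exact mul_le_mul_of_nonneg_left h2 (Real.exp_pos _).le
    · show (0 : ℝ) ≤ (p.1 : ℝ)
      exact_mod_cast (show (0 : ℤ) ≤ p.1 from hp)
  | triangular =>
    obtain ⟨K0, G0⟩ := Pool.Agent.R965.HP.half_tri
    have h00 : (0 : ℤ) ≤ 0 + 0 := by norm_num
    have hm : Merge TH966.AK.Tri.A (fun p : ℤ × ℤ => 0 ≤ p.1 + p.2) 1 :=
      merge_win TH966.AK.Tri.rule h00 G0 one_le_two
    refine ⟨@H982.mu H982P.triL, @H982.mu_pos H982P.triL,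
      root_of H982P.triL .triangular etri TH966.AK.Tri.rule htri,
      half_of .triangular _ h00 etri TH966.AK.Tri.rule rfl
        (show 1 + 1 ≤ 10 by norm_num) Pool.Agent.R965.HP.half_tri, fun _ => ?_,
      (fun h => by cases h), merges_of .triangular etri hm, ?_⟩
    · exact dom_of H982P.triL .triangular etri TH966.AK.Tri.rule rfl
        (show 1 + 1 ≤ 10 by norm_num)
        (show 1 ≤ 1 by norm_num) htri Pool.Agent.R965.HP.tri_cl Pool.Agent.R965.HP.tri_poor
    · have key : ∀ {A : ℤ × ℤ → ℤ × ℤ → Prop} (_ : Grid.triangular.Adj = A) (Z : Rule A)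
          (_ : Gr (ruleD Z (fun p : ℤ × ℤ => 0 ≤ p.1 + p.2)).sys (@H982.mu H982P.triL) K0 2)
          (_ : Merge A (fun p : ℤ × ℤ => 0 ≤ p.1 + p.2) 1), ShapeStatement .triangular := by
        intro A e Z hG hM
        subst e
        refine shape_of .triangular Z h00 hG hM (show 1 ≤ 1 from le_rfl) emb_tri fun p hp => ?_
        show 0 ≤ √3 / 2 * ((p.1 : ℝ) + (p.2 : ℝ))
        have : (0 : ℝ) ≤ (p.1 : ℝ) + (p.2 : ℝ) := by
          exact_mod_cast (show (0 : ℤ) ≤ p.1 + p.2 from hp)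
        positivity
      exact key etri TH966.AK.Tri.rule G0 hm
  | hexagonal =>
    obtain ⟨K0, G0⟩ := Pool.Agent.R965.HP.half_hex
    have h00 : (0 : ℤ) ≤ 0 := le_rfl
    have hm : Merge TH966.AK.Hex.A (fun p : ℤ × ℤ => 0 ≤ p.1) 2 :=
      merge_win TH966.AK.Hex.rule h00 G0 one_le_two
    refine ⟨Real.sqrt (2 + Real.sqrt 2), by positivity, ?_,
      half_of .hexagonal _ h00 ehex TH966.AK.Hex.rule rfl
        (show 8 + 2 ≤ 10 by norm_num) Pool.Agent.R965.HP.half_hex, fun h => absurd rfl h,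
      (fun h => by cases h), merges_of .hexagonal ehex hm,
      shape_of .hexagonal TH966.AK.Hex.rule h00 G0 hm (show 1 ≤ 2 by norm_num) emb_hex
        fun p hp => ?_⟩
    · have h1 := root_of H982P.hexL .hexagonal ehex TH966.AK.Hex.rule H982P.coord_hex
      rw [Pool.Agent.H976R3.HPL.mu_hex] at h1
      exact h1
    · show 0 ≤ √3 / 2 * (p.1 : ℝ)
      have : (0 : ℝ) ≤ (p.1 : ℝ) := by exact_mod_cast (show (0 : ℤ) ≤ p.1 from hp)
      positivity

end Pool.Agent.Results.MP_df1d0b_pr.ShapeMerging
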